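import Pool.Agent.R502.WD.Fin3
import Pool.Agent.R502.WD.Fin4

/-!
# The least Goldbach prime above `√N`

The question asks, for every even `N > 6`, for primes `p ≠ q` with `p + q = N` and
`√N < p < 4 √N`. Here we bound the least such `p` from below for many `N`.

1. (Any sparse set of primes `p`.) Let `λ > 0` and `0 < θ ≤ 1`. There is `δ > 0` such that for
   every `A` and all large `X`, every interval `[x, x + Y)`, `X ^ θ ≤ Y ≤ X / 8`, `X ≤ x ≤ 2 X`, and
   every set `P` of at most `λ log X` integers which is contained in an interval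
   `[u, u + (log X) ^ A]`, `u ≤ X / 2`: for at least `δ Y` even `N` of the interval no `N - p`,
   `p ∈ P`, is prime.
2. For every `λ` there is `δ > 0` such that for all large `X` at least `δ X` even `N ∈ [X, 2 X)` have
   no prime `p` with `√N < p ≤ √N + λ (log N) ^ 2` and `N - p` prime: the least prime `p > √N` of the
   question is larger than `√N + λ (log N) ^ 2`.
-/

set_option autoImplicit false

open Finset Filter

namespace Pool.Agent.Results.MP_b58c63_nt.FirstWindow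

open Classical in
/-- **Sparse sets of summands in short intervals, and the first window above `√N`.** -/
theorem result :
    (∀ lam θ : ℝ, 0 < lam → 0 < θ → θ ≤ 1 → ∃ δ : ℝ, 0 < δ ∧ ∀ A : ℕ, ∃ X₀ : ℕ, ∀ X : ℕ, X₀ ≤ X →
      ∀ Y x u : ℕ, (X : ℝ) ^ θ ≤ Y → 8 * Y ≤ X → X ≤ x → x ≤ 2 * X → 2 * u ≤ X →
      ∀ P : Finset ℕ, (P.card : ℝ) ≤ lam * Real.log X →
      (∀ p ∈ P, u ≤ p ∧ (p : ℝ) ≤ u + Real.log X ^ A) →
      δ * Y ≤ (((Ico x (x + Y)).filter (fun N : ℕ => Even N ∧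
        ∀ p q : ℕ, p ∈ P → q.Prime → p + q ≠ N)).card : ℝ)) ∧
    (∀ lam : ℝ, 0 < lam → ∃ δ : ℝ, 0 < δ ∧ ∃ X₀ : ℕ, ∀ X : ℕ, X₀ ≤ X →
      δ * X ≤ (((Ico X (2 * X)).filter (fun N : ℕ => Even N ∧
        ∀ p q : ℕ, p.Prime → q.Prime → p + q = N → Real.sqrt N < p →
          Real.sqrt N + lam * Real.log N ^ 2 < p)).card : ℝ)) := by
  refine ⟨?_, ?_⟩
  · intro lam θ hlam hθ hθ1
    obtain ⟨δ, hδ, h⟩ := Pool.Agent.R502.WD.short_one lam θ hlam hθ hθ1
    refine ⟨δ, hδ, fun A => ?_⟩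
    obtain ⟨X₀, hX₀⟩ := h A
    refine ⟨X₀, fun X hX Y x u h1 h2 h3 h4 h5 P h6 h7 =>
      (hX₀ X hX Y x u h1 h2 h3 h4 h5 P h6 h7).trans ?_⟩
    apply Nat.cast_le.2
    apply card_le_card
    intro N hN
    rw [mem_filter] at hN ⊢
    refine ⟨hN.1, hN.2.1, fun p q hp hq hpq => hN.2.2 p hp ?_⟩
    rw [← hpq, Nat.add_sub_cancel_left]
    exact hq
  · intro lam hlam
    obtain ⟨δ, hδ, X₀, h⟩ := Pool.Agent.R502.WD.windows_first lam hlam
    refine ⟨δ, hδ, X₀, fun X hX => (h X hX).trans ?_⟩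
    apply Nat.cast_le.2
    apply card_le_card
    intro N hN
    rw [mem_filter] at hN ⊢
    refine ⟨hN.1, hN.2.1, fun p q hp hq hpq h1 => ?_⟩
    by_contra h2
    exact hN.2.2 p q hp hq hpq.symm ⟨h1, not_lt.1 h2⟩

end Pool.Agent.Results.MP_b58c63_nt.FirstWindow
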