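import Pool.Agent.R498.MP.Gold

set_option autoImplicit false

/-!
# Primes between `√(2 n)` and `4 √(2 n)` with index in a residue class complementary to almost primes
-/

namespace Pool.Agent.Results.MP_b58c63_nt.IndexClasses

open Filter

/-- `n` has at most `r` prime factors, counted with multiplicity, all of them at least `w`. -/
def AlmostPrime (r : ℕ) (w : ℝ) (n : ℕ) : Prop :=
  n.primeFactorsList.length ≤ r ∧ ∀ q : ℕ, q.Prime → q ∣ n → w ≤ q

/-- The `j`-th prime: `pr 1 = 2`, `pr 2 = 3`, and so on. -/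
noncomputable def pr (j : ℕ) : ℕ := Nat.nth Nat.Prime (j - 1)

/-- **Every large `2 n` is `p` plus an almost prime, for primes `p` in `(√(2 n), 4 √(2 n))` with index in any
residue class.** Let `q` be squarefree, `u ≥ 1` and `r ≥ 0`. There are `C`, `R` and `δ > 0` such that, for every
`b`, the following holds for all large `n`, all `X` with `√(2 n) ≤ X < 2 √(2 n)` and all `c` for which
`c (2 n - c)` is coprime to `q` (for instance `q = 1`). There is a `t ≥ 1` such that the `r + 1` primes `p_j`,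
`j = u t + b, u (t + 1) + b, ..., u (t + r) + b`, lie in `(X, 2 X]` (so in `(√(2 n), 4 √(2 n))`), in an
interval of length at most `C`, they are all `≡ c` modulo `q`, and for each of them, `p` say, `2 n - p` has at
most `R` prime factors, all of them at least `X ^ δ`. -/
theorem result (q : ℕ) (hq : Squarefree q) (u r : ℕ) (hu : 0 < u) : ∃ (C R : ℕ) (δ : ℝ), 0 < δ ∧
    ∀ b : ℕ, ∀ᶠ n : ℕ in atTop, ∀ X : ℕ, Real.sqrt (2 * n) ≤ X → (X : ℝ) < 2 * Real.sqrt (2 * n) →
      ∀ c : ℕ, IsCoprime ((c : ℤ) * (2 * n - c)) (q : ℤ) →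
      ∃ t : ℕ, 0 < t ∧ X < pr (u * t + b) ∧ pr (u * (t + r) + b) ≤ 2 * X ∧
        pr (u * (t + r) + b) ≤ pr (u * t + b) + C ∧
        ∀ i ≤ r, pr (u * (t + i) + b) ≡ c [MOD q] ∧
          AlmostPrime R ((X : ℝ) ^ δ) (2 * n - pr (u * (t + i) + b)) := by
  obtain ⟨C, δ, hδ, hmain⟩ := Pool.Agent.R498.MP.gold_indexM q hq u r hu
  obtain ⟨R, hR⟩ := hmain 2
  refine ⟨C, R, δ, hδ, fun b => ?_⟩
  obtain ⟨M₀, hM₀⟩ := eventually_atTop.1 (hR b)
  filter_upwards [eventually_ge_atTop (M₀ + 8)] with n hn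
  intro X h1 h2 c hc
  have hs0 : 0 ≤ Real.sqrt (2 * n) := Real.sqrt_nonneg _
  have hss : Real.sqrt (2 * n) * Real.sqrt (2 * n) = 2 * n :=
    Real.mul_self_sqrt (by positivity)
  have h16r : (16 : ℝ) ≤ 2 * n := by
    have : (8 : ℝ) ≤ n := by exact_mod_cast (by omega : 8 ≤ n)
    linarith
  have h4 : (4 : ℝ) ≤ Real.sqrt (2 * n) := by
    apply Real.le_sqrt_of_sq_le
    norm_num
    exact h16r
  have h3 : 2 * n ≤ X ^ 2 := by
    have : (2 * n : ℝ) ≤ (X : ℝ) ^ 2 := by
      rw [← hss, sq]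
      exact mul_le_mul h1 h1 hs0 (Nat.cast_nonneg _)
    exact_mod_cast this
  have h5 : 2 * X < 2 * n := by
    have : (2 : ℝ) * X < 2 * n := by nlinarith
    exact_mod_cast this
  exact hM₀ (2 * n) (by omega) X h3 (even_two_mul n) h5 c (by push_cast; exact hc)

end Pool.Agent.Results.MP_b58c63_nt.IndexClasses
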