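import Mathlib
import Pool.Agent.R463.Pair

set_option autoImplicit false

/-!
# Goldbach with a prime in `(√N, 4 √N)` and an almost prime second summand, for every even `N`

For EVERY large even `N` the number of the primes `q` with `√N < q < 4 √N` such that `N - q` has no prime
factor `≤ N ^ (1 / r)`, and the Poisson law of the `l` after them such that neither `l` nor `N - l` has
such a prime factor.
-/

namespace Pool.Agent.Results.MP_b58c63_nt.LawAfterPrimes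

open Finset Filter
open Pool.Agent.R463.PS

/-- neither `n` nor `N - n` has a prime factor `p ≤ X ^ (1 / r)` -/
def Good (N X r n : ℕ) : Prop :=
  ∀ p : ℕ, p.Prime → (p : ℝ) ≤ (X : ℝ) ^ (1 / (r : ℝ)) → ¬ (p : ℤ) ∣ (n : ℤ) ∧ ¬ (p : ℤ) ∣ (N : ℤ) - n

/-- `1` for the prime factors of `N`, `2` for the other primes -/
def nu (N p : ℕ) : ℕ := if p ∣ N then 1 else 2

/-- the product of `1 - nu(p) / p` over the primes `p ≤ X ^ (1 / r)` -/
noncomputable def V (N X r : ℕ) : ℝ :=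
  ∏ p ∈ (Icc 1 ⌊(X : ℝ) ^ (1 / (r : ℝ))⌋₊).filter Nat.Prime, (1 - (nu N p : ℝ) / p)

/-- the product of `(1 - nu(p) / p) / (1 - 1 / p)` over the primes `p ≤ X ^ (1 / r)` -/
noncomputable def W (N X r : ℕ) : ℝ :=
  ∏ p ∈ (Icc 1 ⌊(X : ℝ) ^ (1 / (r : ℝ))⌋₊).filter Nat.Prime, (1 - (nu N p : ℝ) / p) / (1 - 1 / (p : ℝ))

open Classical in
/-- the PRIMES `n` in `(A, A + L]` which are good -/
noncomputable def Pr (N X r A L : ℕ) : Finset ℕ := (Ioc A (A + L)).filter (fun n => n.Prime ∧ Good N X r n)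

open Classical in
/-- the number of the good integers in `(n, n + T]` -/
noncomputable def Next (N X r T n : ℕ) : ℕ := ((Ioc n (n + T)).filter (fun l => Good N X r l)).card

lemma good_iff (N X r n : ℕ) : Good N X r n ↔ Sifted (Pool.Agent.Y879.GL.pf (-1) N 1 0) X r n := by
  rw [pair_sift]
  unfold Good
  have e : (-1 : ℤ) * (((1 : ℕ) : ℤ) * n + ((0 : ℕ) : ℤ)) + N = N - n := by push_cast; ring
  have e0 : (((1 : ℕ) : ℤ) * n + ((0 : ℕ) : ℤ)) = n := by push_cast; ring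
  rw [e, e0]

lemma om_eq (N p : ℕ) (hp : p.Prime) : Pool.Agent.R463.PS.om (Pool.Agent.Y879.GL.pf (-1) N 1 0) p = nu N p := by
  rw [pair_om (-1) N (by norm_num) 1 0 p hp (by simp) (by
    rw [Nat.cast_one]
    exact isCoprime_one_left)]
  unfold nu
  rw [if_neg (fun h => hp.one_lt.ne' (Nat.dvd_one.1 h))]
  simp only [Int.natCast_dvd_natCast]

lemma V_eq (N X r : ℕ) : V N X r = Pool.Agent.R463.PS.V (Pool.Agent.Y879.GL.pf (-1) N 1 0) X r := by
  unfold V Pool.Agent.R463.PS.V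
  apply prod_congr rfl
  intro p hp
  rw [om_eq N p (mem_filter.1 hp).2]

lemma W_eq (N X r : ℕ) : W N X r = Pool.Agent.R463.PS.W (Pool.Agent.Y879.GL.pf (-1) N 1 0) X r := by
  unfold W Pool.Agent.R463.PS.W
  apply prod_congr rfl
  intro p hp
  rw [om_eq N p (mem_filter.1 hp).2]

lemma Pr_eq (N X r A L : ℕ) :
    Pr N X r A L = Pool.Agent.R463.PS.Pr 1 0 (Pool.Agent.Y879.GL.pf (-1) N 1 0) X r A L := by
  classical
  unfold Pr Pool.Agent.R463.PS.Pr
  apply filter_congr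
  intro n _
  rw [good_iff, one_mul, add_zero]

lemma Next_eq (N X r T n : ℕ) :
    Next N X r T n = Pool.Agent.R463.PS.Next (Pool.Agent.Y879.GL.pf (-1) N 1 0) X r T n := by
  classical
  unfold Next Pool.Agent.R463.PS.Next
  congr 1
  apply filter_congr
  intro l _
  exact good_iff N X r l

/-- the general law -/
theorem main (E δ' θ δ : ℝ) (hE : 0 < E) (hδ' : 0 < δ') (hθ : 0 < θ) (hδ : 0 < δ) (hδ1 : δ ≤ 1)
    (x₀ ε : ℝ) (hε : 0 < ε) (hε1 : ε ≤ 1) :
    ∃ r₀ : ℕ, ∀ r : ℕ, r₀ ≤ r → ∀ᶠ X : ℕ in atTop, ∀ N : ℕ, Even N → (X : ℝ) ^ δ' < N →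
      (N : ℝ) ≤ (X : ℝ) ^ E → 0 < V N X r ∧ 0 < W N X r ∧
      ∀ x : ℕ, (X : ℝ) ^ θ ≤ x → ∀ A L : ℕ, δ * x ≤ L → A + L ≤ x →
        |((Pr N X r A L).card : ℝ) * Real.log x - L * W N X r| ≤ ε * (L * W N X r) ∧
        ∀ T : ℕ, T * V N X r ≤ x₀ → ∀ B : Finset ℕ,
          |(((Pr N X r A L).filter (fun n => Next N X r T n ∈ B)).card : ℝ) -
            (Pr N X r A L).card *
              ∑ j ∈ B, Real.exp (-(T * V N X r)) * (T * V N X r) ^ j / j.factorial| ≤
            ε * (Pr N X r A L).card := by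
  classical
  obtain ⟨r₀, hr₀, h⟩ := Pool.Agent.R463.PS.after 1 2 1 squarefree_one (E + 1) δ' θ δ (by linarith) hδ' hθ hδ
    hδ1 x₀ ε hε hε1
  refine ⟨r₀, fun r hr => ?_⟩
  obtain ⟨M, hM, hV⟩ := pair_V E hE δ' r (hr₀.trans hr)
  filter_upwards [h r hr M, hV, pair_sys E hE δ', eventually_ge_atTop 1] with X h1 h2 h3 h4 N hN hNl hNX
  have hX1 : (1 : ℝ) ≤ X := by exact_mod_cast h4
  have hN0 : (0 : ℝ) < N := lt_trans (Real.rpow_pos_of_pos (by linarith) _) hNl
  have hN0' : N ≠ 0 := by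
    rintro rfl
    simp at hN0
  have habs : |(((N : ℕ) : ℤ) : ℝ)| = N := by
    rw [Int.cast_natCast, abs_of_pos hN0]
  have hXE : (1 : ℝ) ≤ (X : ℝ) ^ E := Real.one_le_rpow hX1 hE.le
  have hok : PairOK X E δ' (-1) (N : ℤ) 1 0 :=
    { he := by norm_num
      hf := by exact_mod_cast hN
      hf0 := by exact_mod_cast hN0'
      hfX := by rw [habs]; exact hNX
      hq := le_rfl
      hqX := by rw [Nat.cast_one]; exact hXE
      haX := by rw [Nat.cast_zero]; linarith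
      hqa := by simp
      hqf := by rw [Nat.cast_one]; exact isCoprime_one_left }
  have hsys := h3 (-1) N 1 0 hok (by rw [habs, Nat.cast_one, one_mul]; exact hNl)
  have hVpos : 0 < V N X r := by
    rw [V_eq, Pool.Agent.R463.PS.V_eq]
    exact Pool.Agent.TH464.PO.Vq_pos _ (Pool.Agent.Y879.GL.us_adm hsys.us) _
  refine ⟨hVpos, ?_, ?_⟩
  · rw [W_eq, Pool.Agent.R463.PS.W_eq, ← V_eq]
    exact div_pos hVpos (Pool.Agent.H373R2.T7.Vz_pos _)
  · intro x hx A L hL hAL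
    obtain ⟨g1, g2⟩ := h1 _ 0 hsys (by simp) (fun p n hp hp1 => by
        exact absurd (Nat.dvd_one.1 hp1) hp.one_lt.ne') ⟨0, fun n => by
          rw [(pf_eval (-1) N 1 0 n).1]⟩ (h2 (-1) N 1 0 hok) (by
          push_cast
          positivity) x hx A L hL hAL
    rw [W_eq, V_eq, Pr_eq]
    refine ⟨g1, ?_⟩
    intro T hT B
    simp only [Next_eq]
    exact g2 T hT B

open Classical in
/-- the PRIMES `n` with `√N < n < 4 √N` such that neither `n` nor `N - n` has a prime factor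
`≤ N ^ (1 / r)` -/
noncomputable def P (N r : ℕ) : Finset ℕ :=
  (Icc 1 (16 * N)).filter (fun n => n.Prime ∧ Real.sqrt N < n ∧ (n : ℝ) < 4 * Real.sqrt N ∧ Good N N r n)

lemma window (N n : ℕ) (hN : 1 ≤ N) (hn : 1 ≤ n) :
    (Nat.sqrt N < n ∧ n ≤ Nat.sqrt (16 * N - 1)) ↔ (Real.sqrt N < n ∧ (n : ℝ) < 4 * Real.sqrt N) := by
  have hn0 : (0 : ℝ) < n := by exact_mod_cast hn
  have h1 : Nat.sqrt N < n ↔ Real.sqrt N < n := by
    rw [Nat.sqrt_lt', Real.sqrt_lt' hn0]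
    exact_mod_cast Iff.rfl
  have h2 : n ≤ Nat.sqrt (16 * N - 1) ↔ (n : ℝ) < 4 * Real.sqrt N := by
    have h3 : (4 : ℝ) * Real.sqrt N = Real.sqrt ((16 * N : ℕ) : ℝ) := by
      push_cast
      rw [Real.sqrt_mul (by norm_num), show (16 : ℝ) = 4 ^ 2 by norm_num, Real.sqrt_sq (by norm_num)]
    rw [Nat.le_sqrt', h3, Real.lt_sqrt hn0.le]
    constructor
    · intro h
      have h4 : n ^ 2 < 16 * N := by omega
      exact_mod_cast h4
    · intro h
      have h4 : n ^ 2 < 16 * N := by exact_mod_cast h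
      omega
  rw [h1, h2]

lemma P_eq (N r : ℕ) (hN : 1 ≤ N) :
    P N r = Pr N N r (Nat.sqrt N) (Nat.sqrt (16 * N - 1) - Nat.sqrt N) := by
  classical
  ext n
  unfold P Pr
  rw [mem_filter, mem_filter, mem_Icc, mem_Ioc]
  have hle : Nat.sqrt N ≤ Nat.sqrt (16 * N - 1) := Nat.sqrt_le_sqrt (by omega)
  constructor
  · rintro ⟨⟨a1, _⟩, a3, a4, a5, a6⟩
    obtain ⟨h1, h2⟩ := (window N n hN a1).2 ⟨a4, a5⟩
    exact ⟨⟨h1, by omega⟩, a3, a6⟩
  · rintro ⟨⟨a1, a2⟩, a3, a4⟩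
    have hn1 : 1 ≤ n := a3.one_lt.le
    obtain ⟨h1, h2⟩ := (window N n hN hn1).1 ⟨a1, by omega⟩
    refine ⟨⟨hn1, ?_⟩, a3, h1, h2, a4⟩
    have h3 : n ≤ Nat.sqrt (16 * N - 1) := by omega
    have h4 : Nat.sqrt (16 * N - 1) ≤ 16 * N - 1 := Nat.sqrt_le_self _
    omega

lemma arith (c lx lN L s W ε : ℝ) (hε : 0 < ε) (hε1 : ε ≤ 1) (hW : 0 < W) (hs : 0 < s) (hc : 0 ≤ c)
    (h1 : |c * lx - L * W| ≤ ε / 8 * (L * W)) (h2 : |L - 3 * s| ≤ ε / 8 * (3 * s))
    (h3 : lN ≤ 2 * lx) (h4 : 2 * lx ≤ (1 + ε / 8) * lN) (h5 : 0 < lN) :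
    |c * lN - 6 * (s * W)| ≤ ε * (6 * (s * W)) := by
  obtain ⟨a1, a2⟩ := abs_le.1 h1
  obtain ⟨b1, b2⟩ := abs_le.1 h2
  have hsW : 0 < s * W := mul_pos hs hW
  have hLW1 : L * W ≤ (1 + ε / 8) * (3 * s) * W := mul_le_mul_of_nonneg_right (by linarith) hW.le
  have hLW2 : (1 - ε / 8) * (3 * s) * W ≤ L * W := mul_le_mul_of_nonneg_right (by linarith) hW.le
  have hu : c * lN ≤ c * (2 * lx) := mul_le_mul_of_nonneg_left h3 hc
  have hl : c * (2 * lx) ≤ c * ((1 + ε / 8) * lN) := mul_le_mul_of_nonneg_left h4 hc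
  have hLW0 : 0 ≤ L * W := by
    have : 0 ≤ (1 - ε / 8) * (3 * s) * W := by
      have : 0 ≤ 1 - ε / 8 := by linarith
      positivity
    linarith
  rw [abs_le]
  constructor
  · -- lower bound
    have k1 : 2 * (L * W) * (1 - ε / 8) ≤ c * ((1 + ε / 8) * lN) := by linarith
    have k2 : (1 - ε / 8) * (6 * (s * W)) * (1 - ε / 8) ≤ 2 * (L * W) * (1 - ε / 8) := by
      apply mul_le_mul_of_nonneg_right _ (by linarith)
      linarith
    have k3 : (1 - ε / 8) * (6 * (s * W)) * (1 - ε / 8) ≤ (1 + ε / 8) * (c * lN) := by linarith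
    have k4 : (1 + ε / 8) * ((1 - ε) * (6 * (s * W))) ≤ (1 - ε / 8) * (6 * (s * W)) * (1 - ε / 8) := by
      have : (1 + ε / 8) * (1 - ε) ≤ (1 - ε / 8) * (1 - ε / 8) := by nlinarith
      have k5 := mul_le_mul_of_nonneg_right this (show (0 : ℝ) ≤ 6 * (s * W) by positivity)
      linarith
    have k6 : (1 + ε / 8) * ((1 - ε) * (6 * (s * W))) ≤ (1 + ε / 8) * (c * lN) := k4.trans k3
    have k7 := le_of_mul_le_mul_left k6 (by linarith)
    linarith
  · have k1 : c * lN ≤ 2 * (L * W) * (1 + ε / 8) := by linarith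
    have k2 : 2 * (L * W) * (1 + ε / 8) ≤ (1 + ε / 8) * (6 * (s * W)) * (1 + ε / 8) := by
      apply mul_le_mul_of_nonneg_right _ (by linarith)
      linarith
    have k3 : (1 + ε / 8) * (1 + ε / 8) ≤ 1 + ε := by nlinarith
    have k4 := mul_le_mul_of_nonneg_right k3 (show (0 : ℝ) ≤ 6 * (s * W) by positivity)
    linarith

open Classical in
/-- **Goldbach with a prime `q` in `(√N, 4 √N)` and `N - q` almost prime, for EVERY even `N`: number and
Poisson law.** For `0 < ε ≤ 1` and `x₀` there is `r₀` such that for all `r ≥ r₀` and all large even `N`: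
(1) the number of the PRIMES `q` with `√N < q < 4 √N` such that `N - q` has no prime factor
`≤ N ^ (1 / r)` is `(1 + η) 6 √N W / log N`, `|η| ≤ ε`;
(2) for `T V ≤ x₀` the number of the `l` in `(q, q + T]` such that neither `l` nor `N - l` has a prime
factor `≤ N ^ (1 / r)`, `q` running over the primes in (1), has the Poisson law of mean `T V`, up to
`ε`. -/
theorem result (x₀ ε : ℝ) (hε : 0 < ε) (hε1 : ε ≤ 1) :
    ∃ r₀ : ℕ, ∀ r : ℕ, r₀ ≤ r → ∀ᶠ N : ℕ in atTop, Even N → 0 < V N N r ∧ 0 < W N N r ∧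
      |((P N r).card : ℝ) * Real.log N - 6 * (Real.sqrt N * W N N r)| ≤
        ε * (6 * (Real.sqrt N * W N N r)) ∧
      ∀ T : ℕ, T * V N N r ≤ x₀ → ∀ B : Finset ℕ,
        |(((P N r).filter (fun q => Next N N r T q ∈ B)).card : ℝ) -
          (P N r).card * ∑ j ∈ B, Real.exp (-(T * V N N r)) * (T * V N N r) ^ j / j.factorial| ≤
          ε * (P N r).card := by
  obtain ⟨r₀, h⟩ := main 1 (1 / 2) (1 / 2) (1 / 2) one_pos (by norm_num) (by norm_num) (by norm_num)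
    (by norm_num) x₀ (ε / 8) (by positivity) (by linarith)
  refine ⟨r₀, fun r hr => ?_⟩
  have hlog : Tendsto (fun N : ℕ => Real.log (N : ℝ)) atTop atTop :=
    Real.tendsto_log_atTop.comp tendsto_natCast_atTop_atTop
  have hsq : Tendsto (fun N : ℕ => (N : ℝ) ^ (1 / 2 : ℝ)) atTop atTop :=
    (tendsto_rpow_atTop (by norm_num)).comp tendsto_natCast_atTop_atTop
  filter_upwards [h r hr, eventually_ge_atTop 2, hlog.eventually_ge_atTop (8 * Real.log 16 / ε),
    hsq.eventually_ge_atTop (max 2 (8 / ε))] with N h1 hN2 hlN hsN hev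
  have hNr : (2 : ℝ) ≤ N := by exact_mod_cast hN2
  have hsqrt : (N : ℝ) ^ (1 / 2 : ℝ) = Real.sqrt N := (Real.sqrt_eq_rpow _).symm
  rw [hsqrt] at hsN
  obtain ⟨s, hs⟩ : ∃ s, s = Real.sqrt N := ⟨_, rfl⟩
  have hs2 : (2 : ℝ) ≤ s := by rw [hs]; exact (le_max_left _ _).trans hsN
  have hs8 : 8 / ε ≤ s := by rw [hs]; exact (le_max_right _ _).trans hsN
  have hss : s * s = N := by rw [hs]; exact Real.mul_self_sqrt (by linarith)
  have hsltN : s < N := by nlinarith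
  obtain ⟨h2, h3, h4⟩ := h1 N hev (by rw [hsqrt, ← hs]; exact hsltN) (by rw [Real.rpow_one])
  -- the window
  obtain ⟨x, hx⟩ : ∃ x, x = Nat.sqrt (16 * N - 1) := ⟨_, rfl⟩
  obtain ⟨A, hA⟩ : ∃ A, A = Nat.sqrt N := ⟨_, rfl⟩
  have hAle : A ≤ x := by rw [hA, hx]; exact Nat.sqrt_le_sqrt (by omega)
  have hA1 : (A : ℝ) ≤ s := by
    rw [hs, hA]
    apply Real.le_sqrt_of_sq_le
    exact_mod_cast Nat.sqrt_le' N
  have hA2 : s < A + 1 := by
    rw [hs, Real.sqrt_lt' (by positivity), hA]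
    exact_mod_cast Nat.lt_succ_sqrt' N
  have h16 : (4 * s) * (4 * s) = ((16 * N : ℕ) : ℝ) := by
    push_cast
    rw [← hss]
    ring
  have hx1 : (x : ℝ) < 4 * s := by
    have h5 : x ^ 2 < 16 * N := by
      have := Nat.sqrt_le' (16 * N - 1)
      rw [← hx] at this
      omega
    have h6 : (x : ℝ) ^ 2 < (4 * s) ^ 2 := by
      rw [sq (4 * s), h16]
      exact_mod_cast h5
    exact lt_of_pow_lt_pow_left₀ 2 (by linarith) h6
  have hx2 : 4 * s ≤ x + 1 := by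
    have h5 : 16 * N ≤ (x + 1) ^ 2 := by
      have := Nat.lt_succ_sqrt' (16 * N - 1)
      rw [← hx] at this
      have h7 : 16 * N - 1 < (x + 1) ^ 2 := this
      omega
    have h6 : (4 * s) ^ 2 ≤ ((x : ℝ) + 1) ^ 2 := by
      rw [sq (4 * s), h16]
      exact_mod_cast h5
    exact le_of_sq_le_sq h6 (by positivity)
  have hL : ((x - A : ℕ) : ℝ) = (x : ℝ) - A := Nat.cast_sub hAle
  obtain ⟨g1, g2⟩ := h4 x (by rw [hsqrt, ← hs]; linarith) A (x - A) (by rw [hL]; linarith) (by omega)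
  have hPe : P N r = Pr N N r A (x - A) := by rw [hA, hx]; exact P_eq N r (by omega)
  refine ⟨h2, h3, ?_, ?_⟩
  · rw [hPe, ← hs]
    apply arith _ (Real.log x) _ ((x - A : ℕ) : ℝ) s _ ε hε hε1 h3 (by linarith) (Nat.cast_nonneg _) g1
    · rw [hL, abs_le]
      have h8 : 1 ≤ ε / 8 * s := by
        rw [div_le_iff₀ hε] at hs8
        linarith
      constructor <;> nlinarith
    · -- log N ≤ 2 log x
      have h5 : (N : ℝ) ≤ (x : ℝ) ^ 2 := by
        have : s ≤ x := by linarith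
        nlinarith
      have h6 := Real.log_le_log (by linarith) h5
      rw [Real.log_pow] at h6
      exact_mod_cast h6
    · have hx0 : (0 : ℝ) < x := by linarith
      have h5 : (x : ℝ) ^ 2 ≤ 16 * N := by nlinarith
      have h6 := Real.log_le_log (by positivity) h5
      rw [Real.log_pow, Real.log_mul (by norm_num) (by linarith)] at h6
      rw [div_le_iff₀ hε] at hlN
      push_cast at h6
      nlinarith
    · exact Real.log_pos (by linarith)
  · intro T hT B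
    rw [hPe]
    have h8 := g2 T hT B
    refine h8.trans ?_
    have : (0 : ℝ) ≤ ((Pr N N r A (x - A)).card : ℝ) := Nat.cast_nonneg _
    nlinarith

end Pool.Agent.Results.MP_b58c63_nt.LawAfterPrimes
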